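import Pool.Agent.TH239.FF.Stage1
import Pool.Agent.TH553.J941
import Pool.Agent.TH113.J942
import Pool.Agent.TH889.J943
import Pool.Agent.TH889.J944
import Pool.Agent.TH830.J945
import Pool.Agent.TH73.J946
import Pool.Agent.TH889.J947
import Pool.Agent.TH75.J948
import Pool.Agent.TH830.J949
import Pool.Agent.TH830.J950
import Pool.Agent.TH297.J951
import Pool.Agent.TH297.J952

/-!
# Critical forest fire equations: the main theorem
-/

set_option autoImplicit false

namespace Pool.Agent.TH239.FF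

open Set Filter Topology MeasureTheory

variable {c : ℕ → ℝ → ℝ}

theorem stage1 (h : Sol c) (b : Bas c) (g : Gen c) {a d t₁ t₂ : ℝ} (ha : 0 < a) (had : a ≤ d)
    (ht₁ : 3 ≤ t₁) (h12 : t₁ ≤ t₂) :
    (∫ r in t₁..t₂, (F c r d - F c r a))
      ≤ (∫ x in a..d, H c t₂ x) - (∫ x in a..d, H c t₁ x) := by
  have hcl : ∀ s t, 0 ≤ s → s ≤ t → cl c t - cl c s = (Ph c t - Ph c s) - (1 / 2) * (t - s) :=
    fun s t hs hst => TH830.J945.cl_id h b hs hst
  have hcm : ∀ t, 0 ≤ t → 0 ≤ cl c t ∧ cl c t ≤ 1 := fun t ht => TH830.J945.cl_mem h ht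
  obtain ⟨C, hC, hl⟩ := local_ineq b g
    (fun a ha => TH889.J944.U_lip h b g ha)
    (fun a ha => TH889.J944.U_expand h b g
      (fun t x ht hx => TH889.J943.dr_gen0 h g ht hx) ha)
    (fun a ha => TH889.J944.mo2_expand h b g
      (fun t x ht hx => TH889.J943.dr_gen2 h g ht hx) ha)
    (fun t ht => c0_pos h b hcl hcm ht) (h.ct 0) ha had ht₁ h12
  apply TH73.J946.mono_of_local (fun t => ∫ x in a..d, H c t x) (fun t => F c t d - F c t a)
    (Ph c) t₁ t₂ C h12 hC
  · have hsub : Icc t₁ t₂ ⊆ Ici (0 : ℝ) := fun t ht => by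
      have : t₁ ≤ t := ht.1
      exact (by linarith : (0 : ℝ) ≤ t)
    exact ((F_cont_t g (lt_of_lt_of_le ha had)).mono hsub).sub ((F_cont_t g ha).mono hsub)
  · exact b.pc.mono (fun t ht => by
      have : t₁ ≤ t := ht.1
      exact (by linarith : (0 : ℝ) ≤ t))
  · intro s hs t ht hst
    exact b.pm s t (by linarith [hs.1]) hst
  · exact hl

theorem stage3 (h : Sol c) (b : Bas c) (g : Gen c) {t₁ t₂ β : ℝ}
    (ht₁ : 3 ≤ t₁) (h12 : t₁ ≤ t₂) (hβ : 0 < β) :
    (1 - β ^ 4 / 3) * (t₂ - t₁) - 4 / (3 * β ^ 2) * (Ph c t₂ - Ph c t₁)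
      ≤ (∫ x in Ioi (0 : ℝ), H c t₂ x) - (∫ x in Ioi (0 : ℝ), H c t₁ x) := by
  have hlim : ∀ t : ℝ, 0 ≤ t → Tendsto (fun a => ∫ x in Ioi a, H c t x) (𝓝[>] 0)
      (𝓝 (∫ x in Ioi (0 : ℝ), H c t x)) := by
    intro t ht
    have hI := TH889.J947.H_integrable h g ht
    have h1 : ∀ᶠ a in 𝓝[>] (0 : ℝ), ∫ x in Ioi a, H c t x
        = (∫ x in Ioi (0 : ℝ), H c t x) - ∫ x in (0 : ℝ)..a, H c t x := by
      filter_upwards [self_mem_nhdsWithin] with a ha
      have ha' : (0 : ℝ) < a := ha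
      have := intervalIntegral.integral_interval_add_Ioi (a := 0) (b := a)
        (f := fun x => H c t x) (μ := volume) hI (hI.mono_set (Ioi_subset_Ioi ha'.le))
      linarith
    have h2 : Tendsto (fun a => ∫ x in (0 : ℝ)..a, H c t x) (𝓝[>] 0) (𝓝 0) := by
      have h3 : ContinuousOn (fun a => ∫ x in (0 : ℝ)..a, H c t x) (Icc 0 1) := by
        have h3' : ContinuousOn (fun a => ∫ x in (0 : ℝ)..a, H c t x) (uIcc 0 1) := by
          apply intervalIntegral.continuousOn_primitive_interval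
          rw [uIcc_of_le (zero_le_one)]
          rw [integrableOn_Icc_iff_integrableOn_Ioc]
          exact hI.mono_set (fun x hx => hx.1)
        rwa [uIcc_of_le (zero_le_one)] at h3'
      have h4 := h3 0 (by norm_num)
      have h5 : Tendsto (fun a => ∫ x in (0 : ℝ)..a, H c t x) (𝓝[Icc 0 1] 0) (𝓝 0) := by
        have := h4.tendsto
        simpa using this
      apply h5.mono_left
      rw [nhdsWithin_le_iff]
      have : Ioo (0 : ℝ) 1 ∈ 𝓝[>] (0 : ℝ) := Ioo_mem_nhdsGT one_pos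
      filter_upwards [this] with x hx
      exact ⟨hx.1.le, hx.2.le⟩
    have h6 := (tendsto_const_nhds (x := ∫ x in Ioi (0 : ℝ), H c t x) (f := 𝓝[>] (0 : ℝ))).sub h2
    rw [sub_zero] at h6
    exact h6.congr' (by filter_upwards [h1] with a ha using ha.symm)
  have hL := (hlim t₂ (by linarith)).sub (hlim t₁ (by linarith))
  apply le_of_forall_pos_le_add
  intro ε hε
  -- eventually close
  have hev : ∀ᶠ a in 𝓝[>] (0 : ℝ), (∫ x in Ioi a, H c t₂ x) - (∫ x in Ioi a, H c t₁ x)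
      < (∫ x in Ioi (0 : ℝ), H c t₂ x) - (∫ x in Ioi (0 : ℝ), H c t₁ x) + ε / 2 :=
    hL.eventually (gt_mem_nhds (by linarith))
  rw [eventually_nhdsWithin_iff, Metric.eventually_nhds_iff] at hev
  obtain ⟨η, hη, hev⟩ := hev
  obtain ⟨a, ha, haη, hF⟩ := TH830.J949.exists_small_flux h b g
    (fun s t x hs hst hx => TH830.J945.U2_le h b g hs hst hx)
    (fun t a b β ht ha hab hβ => flux_avg h g ht ha hab hβ)
    (t₁ := t₁) (t₂ := t₂) (β := β) (η := min η (ε / 2)) (by linarith) h12 hβ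
    (lt_min hη (by linarith))
  have h1 := hev (y := a) (by
    rw [Real.dist_eq, sub_zero, abs_of_pos ha]
    exact lt_of_lt_of_le haη (min_le_left _ _)) ha
  have h2 := TH889.J947.stage2 h g
    (fun a d t₁ t₂ ha had ht₁ h12 => stage1 h b g ha had ht₁ h12) ha ht₁ h12
  have h3 : min η (ε / 2) ≤ ε / 2 := min_le_right _ _
  linarith

theorem main_lim (h : Sol c) (n : ℕ) :
    Tendsto (c n) atTop
      (𝓝 ((Nat.centralBinom (n + 1) : ℝ) / ((2 * ((n + 1 : ℕ) : ℝ) - 1) * 4 ^ (n + 1)))) := by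
  have b := TH553.J941.bas_of_sol h
  have g := TH113.J942.gen_of_sol h
  have hcl : ∀ s t, 0 ≤ s → s ≤ t → cl c t - cl c s = (Ph c t - Ph c s) - (1 / 2) * (t - s) :=
    fun s t hs hst => TH830.J945.cl_id h b hs hst
  have hcm : ∀ t, 0 ≤ t → 0 ≤ cl c t ∧ cl c t ≤ 1 := fun t ht => TH830.J945.cl_mem h ht
  apply final h
  apply c0_tendsto h b hcl hcm
  intro r hr
  obtain ⟨C, hC⟩ := TH889.J947.H_int_bound
  apply TH830.J950.Ph_tendsto (fun t => ∫ x in Ioi (0 : ℝ), H c t x) (cl c) (Ph c) (max C 1)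
  · intro t ht
    exact (hC c h g t (by linarith)).trans (le_max_left _ _)
  · intro t ht
    have := hcm t (by linarith)
    rw [abs_of_nonneg this.1]
    exact this.2.trans (le_max_right _ _)
  · intro s t hs hst
    exact b.pm s t (by linarith) hst
  · intro s t hs hst
    exact hcl s t (by linarith) hst
  · intro s t β hs hst hβ
    exact stage3 h b g hs hst hβ
  · exact hr

end Pool.Agent.TH239.FF
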