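import Pool.Agent.TH239.FF.Gen

/-!
# Critical forest fire equations: the local inequality
-/

set_option autoImplicit false

namespace Pool.Agent.TH239.FF

open Set Filter Topology MeasureTheory

/-- the arithmetic-geometric mean inequality for `α, α, β` -/
theorem amgm3 {α β ρ : ℝ} (ha : 0 ≤ α) (hb : 0 ≤ β) (h : ρ ^ 3 ≤ α ^ 2 * β) :
    ρ ≤ (2 * α + β) / 3 := by
  by_contra hc
  push Not at hc
  have h0 : 0 ≤ (2 * α + β) / 3 := by positivity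
  have h1 : ((2 * α + β) / 3) ^ 3 < ρ ^ 3 := pow_lt_pow_left₀ hc h0 (by norm_num)
  have h2 : 27 * (α ^ 2 * β) ≤ (2 * α + β) ^ 3 := by
    have : (2 * α + β) ^ 3 - 27 * (α ^ 2 * β) = (α - β) ^ 2 * (8 * α + β) := by ring
    have h3 : 0 ≤ (α - β) ^ 2 * (8 * α + β) := by positivity
    linarith
  have h4 : ((2 * α + β) / 3) ^ 3 = (2 * α + β) ^ 3 / 27 := by ring
  rw [h4] at h1
  linarith

theorem W_pow {c : ℕ → ℝ → ℝ} {t x : ℝ} (hk : 0 ≤ mo c 2 t x) :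
    (W c t x) ^ 3 = 4 * (1 - (U c t x) ^ 4) ^ 2 * mo c 2 t x := by
  unfold W
  rw [← Real.rpow_natCast, ← Real.rpow_mul (by positivity)]
  norm_num

theorem W_nonneg {c : ℕ → ℝ → ℝ} {t x : ℝ} (hk : 0 ≤ mo c 2 t x) : 0 ≤ W c t x := by
  unfold W; positivity

/-- The tangent inequality for `W`. -/
theorem tangent {w w' A A' k k' : ℝ} (hw : 0 ≤ w) (hw' : 0 < w') (hA : 0 ≤ A) (hA' : 0 < A')
    (hk : 0 ≤ k) (hk' : 0 < k') (h : w ^ 3 = 4 * A ^ 2 * k) (h' : w' ^ 3 = 4 * A' ^ 2 * k') :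
    w - w' ≤ w' * ((2 / 3) * ((A - A') / A') + (1 / 3) * ((k - k') / k')) := by
  have h1 : w / w' ≤ (2 * (A / A') + k / k') / 3 := by
    apply amgm3 (by positivity) (by positivity)
    rw [div_pow, h, h']
    apply le_of_eq
    field_simp
  have h2 : w ≤ w' * ((2 * (A / A') + k / k') / 3) := by
    rw [div_le_iff₀ hw'] at h1; linarith
  have h3 : (A - A') / A' = A / A' - 1 := by field_simp
  have h4 : (k - k') / k' = k / k' - 1 := by field_simp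
  rw [h3, h4]
  nlinarith

theorem key_pos {w A k u : ℝ} (hw : 0 < w) (hA : 0 < A) (hk : 0 < k) (hu : 0 ≤ u)
    (h : w ^ 3 = 4 * A ^ 2 * k) :
    0 ≤ w / (3 * k) + (8 / 3) * w * u ^ 3 / A - 4 * u ^ 2 := by
  have h1 : 4 * u ^ 2 ≤ (2 * (4 * w * u ^ 3 / A) + w / k) / 3 := by
    apply amgm3 (by positivity) (by positivity)
    have : (4 * w * u ^ 3 / A) ^ 2 * (w / k) = 16 * w ^ 3 * u ^ 6 / (A ^ 2 * k) := by
      field_simp; ring
    rw [this, h]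
    apply le_of_eq
    field_simp; ring
  have h2 : w / (3 * k) + (8 / 3) * w * u ^ 3 / A = (2 * (4 * w * u ^ 3 / A) + w / k) / 3 := by
    field_simp; ring
  linarith

/-- the `x`-derivative of the flux -/
noncomputable def Fx (c : ℕ → ℝ → ℝ) (t x : ℝ) : ℝ :=
  (4 * (U c t x) ^ 2 - (8 / 3) * W c t x * (U c t x) ^ 3 / (1 - (U c t x) ^ 4))
      * (U c t x * mo c 1 t x)
    + W c t x / (3 * mo c 2 t x)
      * (3 * mo c 1 t x * mo c 2 t x - U c t x * mo c 3 t x)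

/-- pure inequality: the local estimate at one point -/
theorem pw {w w' u u' k k' δ hh Y z Q m e₁ e₂ M C₁ C₂ : ℝ}
    (hw : 0 ≤ w) (hw' : 0 < w') (hu : 0 ≤ u) (hu1 : u < 1) (hu' : 0 ≤ u') (hu1' : u' < 1)
    (hk : 0 ≤ k) (hk' : 0 < k')
    (h : w ^ 3 = 4 * (1 - u ^ 4) ^ 2 * k) (h' : w' ^ 3 = 4 * (1 - u' ^ 4) ^ 2 * k')
    (hY : 0 ≤ Y) (hz : 0 ≤ z)
    (eU : u' - u = hh * m - z * Y + e₁) (ek : k' - k = hh * Q + z * Y + e₂)
    (he₁ : |e₁| ≤ C₁ * δ ^ 2) (he₂ : |e₂| ≤ C₁ * δ ^ 2) (hd : |u' - u| ≤ C₂ * δ) (hC₁ : 0 ≤ C₁)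
    (hM₁ : |4 * u' ^ 2 - (8 / 3) * w' * u' ^ 3 / (1 - u' ^ 4)| ≤ M) (hM₂ : |w' / (3 * k')| ≤ M) :
    hh * ((4 * u' ^ 2 - (8 / 3) * w' * u' ^ 3 / (1 - u' ^ 4)) * m + w' / (3 * k') * Q)
        - (2 * M * C₁ + 4 * C₂ ^ 2) * δ ^ 2
      ≤ (w' - (4 / 3) * (1 - u' ^ 3)) - (w - (4 / 3) * (1 - u ^ 3)) := by
  have hA : 0 < 1 - u ^ 4 := by
    have : u ^ 4 < 1 := pow_lt_one₀ hu hu1 (by norm_num)
    linarith
  have hA' : 0 < 1 - u' ^ 4 := by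
    have : u' ^ 4 < 1 := pow_lt_one₀ hu' hu1' (by norm_num)
    linarith
  set A := 1 - u ^ 4 with hAdef
  set A' := 1 - u' ^ 4 with hA'def
  have hT := tangent hw hw' hA.le hA' hk hk' h h'
  -- convexity of u^4
  have h4 : A - A' ≤ 4 * u' ^ 3 * (u' - u) := by
    have : 4 * u' ^ 3 * (u' - u) - (A - A') = (u' - u) ^ 2 * (3 * u' ^ 2 + 2 * u * u' + u ^ 2) := by
      rw [hAdef, hA'def]; ring
    have h5 : 0 ≤ (u' - u) ^ 2 * (3 * u' ^ 2 + 2 * u * u' + u ^ 2) := by positivity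
    linarith
  have h5 : w - w' ≤ (8 / 3) * w' * u' ^ 3 / A' * (u' - u) - w' / (3 * k') * (k' - k) := by
    have h6 : (A - A') / A' ≤ 4 * u' ^ 3 * (u' - u) / A' := by gcongr
    calc w - w' ≤ w' * ((2 / 3) * ((A - A') / A') + (1 / 3) * ((k - k') / k')) := hT
      _ ≤ w' * ((2 / 3) * (4 * u' ^ 3 * (u' - u) / A') + (1 / 3) * ((k - k') / k')) := by gcongr
      _ = _ := by field_simp; ring
  have h6 : 3 * u' ^ 2 * (u' - u) - 3 * (u' - u) ^ 2 ≤ u' ^ 3 - u ^ 3 := by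
    have : u' ^ 3 - u ^ 3 - (3 * u' ^ 2 * (u' - u) - 3 * (u' - u) ^ 2)
        = (u' - u) ^ 2 * (3 - 2 * u' - u) := by ring
    have h7 : 0 ≤ (u' - u) ^ 2 * (3 - 2 * u' - u) := by
      apply mul_nonneg (sq_nonneg _); linarith
    linarith
  have h7 : (u' - u) ^ 2 ≤ C₂ ^ 2 * δ ^ 2 := by
    have := pow_le_pow_left₀ (abs_nonneg _) hd 2
    rw [sq_abs] at this
    nlinarith
  have h8 := key_pos hw' hA' hk' hu' h'
  set P₁ := 4 * u' ^ 2 - (8 / 3) * w' * u' ^ 3 / A' with hP₁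
  set P₂ := w' / (3 * k') with hP₂
  have h9 : P₁ * (u' - u) + P₂ * (k' - k) - 4 * (u' - u) ^ 2
      ≤ (w' - (4 / 3) * (1 - u' ^ 3)) - (w - (4 / 3) * (1 - u ^ 3)) := by
    have : P₁ * (u' - u) = 4 * u' ^ 2 * (u' - u) - (8 / 3) * w' * u' ^ 3 / A' * (u' - u) := by
      rw [hP₁]; ring
    rw [this]
    linarith
  have h10 : P₁ * (u' - u) + P₂ * (k' - k)
      = hh * (P₁ * m + P₂ * Q) + z * Y * (P₂ - P₁) + (P₁ * e₁ + P₂ * e₂) := by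
    rw [eU, ek]; ring
  have h11 : 0 ≤ z * Y * (P₂ - P₁) := by
    apply mul_nonneg (mul_nonneg hz hY)
    rw [hP₁]; linarith
  have hM : 0 ≤ M := le_trans (abs_nonneg _) hM₁
  have h12 : -(M * (C₁ * δ ^ 2)) ≤ P₁ * e₁ := by
    have : |P₁ * e₁| ≤ M * (C₁ * δ ^ 2) := by
      rw [abs_mul]; gcongr
    exact (abs_le.mp this).1
  have h13 : -(M * (C₁ * δ ^ 2)) ≤ P₂ * e₂ := by
    have : |P₂ * e₂| ≤ M * (C₁ * δ ^ 2) := by
      rw [abs_mul]; gcongr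
    exact (abs_le.mp this).1
  nlinarith

end Pool.Agent.TH239.FF
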