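import Mathlib

/-!
# Critical forest fire equations: definitions

`c n t` is the mass of clusters of size `n+1` at time `t`.
-/

set_option autoImplicit false

namespace Pool.Agent.TH239.FF

open Set

/-- The coagulation drift of the clusters of size `n+1`. -/
noncomputable def dr (c : ℕ → ℝ → ℝ) (n : ℕ) (t : ℝ) : ℝ :=
  -((n : ℝ) + 1) * c n t
    + (((n : ℝ) + 1) / 2) * ∑ i ∈ Finset.range n, c i t * c (n - 1 - i) t

/-- A nonnegative continuous solution of mass one of the critical forest fire equations. -/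
structure Sol (c : ℕ → ℝ → ℝ) : Prop where
  nn : ∀ n t, 0 ≤ t → 0 ≤ c n t
  sm : ∀ t, 0 ≤ t → HasSum (fun n => c n t) 1
  ct : ∀ n, ContinuousOn (c n) (Ici 0)
  dv : ∀ n, 1 ≤ n → ∀ t, 0 < t → HasDerivAt (c n) (dr c n t) t

/-- The burnt mass up to time `t`. -/
noncomputable def Ph (c : ℕ → ℝ → ℝ) (t : ℝ) : ℝ :=
  c 0 t - c 0 0 + ∫ s in (0 : ℝ)..t, c 0 s

/-- The moments `Σ (n+1)^j c_n(t) e^{-(n+1)x}`. -/
noncomputable def mo (c : ℕ → ℝ → ℝ) (j : ℕ) (t x : ℝ) : ℝ :=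
  ∑' n : ℕ, ((n : ℝ) + 1) ^ j * c n t * Real.exp (-((n : ℝ) + 1) * x)

/-- `U = 1 - Σ c_n e^{-(n+1)x}`. -/
noncomputable def U (c : ℕ → ℝ → ℝ) (t x : ℝ) : ℝ := 1 - mo c 0 t x

/-- `W = (4 (1-U^4)^2 κ)^{1/3}` with `κ = -U_xx`. -/
noncomputable def W (c : ℕ → ℝ → ℝ) (t x : ℝ) : ℝ :=
  (4 * (1 - (U c t x) ^ 4) ^ 2 * mo c 2 t x) ^ ((1 : ℝ) / 3)

/-- The density of the Lyapunov functional. -/
noncomputable def H (c : ℕ → ℝ → ℝ) (t x : ℝ) : ℝ :=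
  W c t x - (4 / 3) * (1 - (U c t x) ^ 3)

/-- The flux of the Lyapunov functional. -/
noncomputable def F (c : ℕ → ℝ → ℝ) (t x : ℝ) : ℝ :=
  U c t x * W c t x + (U c t x) ^ 4

/-- `D = Σ c_n (1 - e^{-(n+1)x})/(n+1)`. -/
noncomputable def D (c : ℕ → ℝ → ℝ) (t x : ℝ) : ℝ :=
  ∑' n : ℕ, c n t * ((1 - Real.exp (-((n : ℝ) + 1) * x)) / ((n : ℝ) + 1))

/-- The number of clusters per vertex. -/
noncomputable def cl (c : ℕ → ℝ → ℝ) (t : ℝ) : ℝ :=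
  ∑' n : ℕ, c n t / ((n : ℝ) + 1)

end Pool.Agent.TH239.FF
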