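import Pool.Agent.TH239.FF.Defs

/-!
# Critical forest fire equations: the list of basic facts

`Bas c` and `Gen c` collect the elementary facts about a solution `c` that the argument uses.
They are proved for every `Sol c` in other modules.
-/

set_option autoImplicit false

namespace Pool.Agent.TH239.FF

open Set Filter Topology MeasureTheory

/-- Elementary facts about the coefficients. -/
structure Bas (c : ℕ → ℝ → ℝ) : Prop where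
  c1 : ∀ n t, 0 ≤ t → c n t ≤ 1
  inc : ∀ n s t, 1 ≤ n → 0 ≤ s → s ≤ t → c n t - c n s = ∫ r in s..t, dr c n r
  drc : ∀ n, ContinuousOn (dr c n) (Ici 0)
  drb : ∀ n t, 0 ≤ t → |dr c n t| ≤ (n : ℝ) + 1
  pm : ∀ s t, 0 ≤ s → s ≤ t → Ph c s ≤ Ph c t
  pc : ContinuousOn (Ph c) (Ici 0)
  lip : ∀ n s t, 0 ≤ s → s ≤ t →
    |c n t - c n s| ≤ ((n : ℝ) + 1) * ((t - s) + (Ph c t - Ph c s))
  exp : ∀ n s t, 0 ≤ s → s ≤ t →
    |c n t - c n s - (t - s) * dr c n t - (if n = 0 then Ph c t - Ph c s else 0)|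
      ≤ 2 * ((n : ℝ) + 1) ^ 2 * ((t - s) * ((t - s) + (Ph c t - Ph c s)))

/-- Elementary facts about the generating functions. -/
structure Gen (c : ℕ → ℝ → ℝ) : Prop where
  su : ∀ (j : ℕ) (t x : ℝ), 0 ≤ t → 0 < x →
    Summable (fun n : ℕ => ((n : ℝ) + 1) ^ j * c n t * Real.exp (-((n : ℝ) + 1) * x))
  de : ∀ (j : ℕ) (t x : ℝ), 0 ≤ t → 0 < x →
    HasDerivAt (fun y => mo c j t y) (-(mo c (j + 1) t x)) x
  co : ∀ j : ℕ, ContinuousOn (fun p : ℝ × ℝ => mo c j p.1 p.2) (Ici 0 ×ˢ Ioi 0)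
  no : ∀ (j : ℕ) (t x : ℝ), 0 ≤ t → 0 ≤ mo c j t x
  m0 : ∀ t x : ℝ, 0 ≤ t → 0 ≤ x → mo c 0 t x ≤ Real.exp (-x)
  lo : ∀ (j : ℕ) (t x : ℝ), 0 ≤ t → 0 < x → c 0 t * Real.exp (-x) ≤ mo c j t x
  m2 : ∀ t x : ℝ, 0 ≤ t → 0 < x → mo c 2 t x ≤ 16 / x ^ 2 * Real.exp (-x / 2)
  m1 : ∀ t x : ℝ, 0 ≤ t → 0 < x → x * mo c 1 t x ≤ U c t x
  ut : ∀ t : ℝ, 0 ≤ t → Tendsto (fun x => U c t x) (𝓝[>] 0) (𝓝 0)

end Pool.Agent.TH239.FF
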