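import Pool.Agent.TH239.FF.Core

/-!
# Critical forest fire equations: stage 1, the inequality on `[a,b]`
-/

set_option autoImplicit false

namespace Pool.Agent.TH239.FF

open Set Filter Topology MeasureTheory

variable {c : ℕ → ℝ → ℝ}

theorem U_hasDerivAt (g : Gen c) {t x : ℝ} (ht : 0 ≤ t) (hx : 0 < x) :
    HasDerivAt (fun y => U c t y) (mo c 1 t x) x := by
  have := (g.de 0 t x ht hx).const_sub 1
  simpa [U] using this

theorem U_le_one (g : Gen c) {t x : ℝ} (ht : 0 ≤ t) : U c t x ≤ 1 := by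
  have := g.no 0 t x ht
  unfold U; linarith

theorem U_nonneg (g : Gen c) {t x : ℝ} (ht : 0 ≤ t) (hx : 0 ≤ x) : 0 ≤ U c t x := by
  have h1 := g.m0 t x ht hx
  have h2 : Real.exp (-x) ≤ 1 := Real.exp_le_one_iff.mpr (by linarith)
  unfold U; linarith

theorem U_le (g : Gen c) {t x : ℝ} (ht : 0 ≤ t) (hx : 0 < x) :
    U c t x ≤ 1 - c 0 t * Real.exp (-x) := by
  have h1 := g.lo 0 t x ht hx
  unfold U; linarith

theorem W_hasDerivAt (g : Gen c) {t x : ℝ} (ht : 0 ≤ t) (hx : 0 < x) (h0 : 0 < c 0 t) :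
    HasDerivAt (fun y => W c t y)
      (W c t x * (-(8 / 3) * (U c t x) ^ 3 * mo c 1 t x / (1 - (U c t x) ^ 4)
        - mo c 3 t x / (3 * mo c 2 t x))) x := by
  have hk : 0 < mo c 2 t x := lt_of_lt_of_le (by positivity) (g.lo 2 t x ht hx)
  have hu1 : U c t x < 1 := by
    have := U_le g ht hx
    have h2 : 0 < c 0 t * Real.exp (-x) := by positivity
    linarith
  have hu0 := U_nonneg g ht hx.le
  have hA : 0 < 1 - (U c t x) ^ 4 := by
    have : (U c t x) ^ 4 < 1 := pow_lt_one₀ hu0 hu1 (by norm_num)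
    linarith
  have hU := U_hasDerivAt g ht hx
  have hP : HasDerivAt (fun y => 4 * (1 - (U c t y) ^ 4) ^ 2 * mo c 2 t y)
      (4 * (2 * (1 - (U c t x) ^ 4) * (-(4 * (U c t x) ^ 3 * mo c 1 t x))) * mo c 2 t x
        + 4 * (1 - (U c t x) ^ 4) ^ 2 * (-(mo c 3 t x))) x := by
    have h1 := ((((hU.pow 4).const_sub 1).pow 2).const_mul 4).mul (g.de 2 t x ht hx)
    have e : (4 * (2 * (1 - (U c t x) ^ 4) * (-(4 * (U c t x) ^ 3 * mo c 1 t x))) * mo c 2 t x
        + 4 * (1 - (U c t x) ^ 4) ^ 2 * (-(mo c 3 t x)))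
        = 4 * ((2 : ℕ) * (1 - (U c t x) ^ 4) ^ (2 - 1) * (-((4 : ℕ) * (U c t x) ^ (4 - 1) * mo c 1 t x))) * mo c 2 t x
        + 4 * (1 - (U c t x) ^ 4) ^ 2 * (-(mo c 3 t x)) := by
      push_cast; ring
    rw [e]
    exact h1
  have hPpos : 0 < 4 * (1 - (U c t x) ^ 4) ^ 2 * mo c 2 t x := by positivity
  have h2 := hP.rpow_const (p := (1 : ℝ) / 3) (Or.inl hPpos.ne')
  unfold W at *
  convert h2 using 1
  rw [Real.rpow_sub_one hPpos.ne']
  field_simp
  ring

theorem F_hasDerivAt (g : Gen c) {t x : ℝ} (ht : 0 ≤ t) (hx : 0 < x) (h0 : 0 < c 0 t) :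
    HasDerivAt (fun y => F c t y) (Fx c t x) x := by
  have hk : 0 < mo c 2 t x := lt_of_lt_of_le (by positivity) (g.lo 2 t x ht hx)
  have hu1 : U c t x < 1 := by
    have := U_le g ht hx
    have h2 : 0 < c 0 t * Real.exp (-x) := by positivity
    linarith
  have hu0 := U_nonneg g ht hx.le
  have hA : 0 < 1 - (U c t x) ^ 4 := by
    have : (U c t x) ^ 4 < 1 := pow_lt_one₀ hu0 hu1 (by norm_num)
    linarith
  have hU := U_hasDerivAt g ht hx
  have hW := W_hasDerivAt g ht hx h0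
  have h1 := (hU.mul hW).add (hU.pow 4)
  have h2 : Fx c t x = mo c 1 t x * W c t x + U c t x *
      (W c t x * (-(8 / 3) * (U c t x) ^ 3 * mo c 1 t x / (1 - (U c t x) ^ 4)
        - mo c 3 t x / (3 * mo c 2 t x))) + (4 : ℕ) * (U c t x) ^ (4 - 1) * mo c 1 t x := by
    unfold Fx
    field_simp
    push_cast
    ring
  rw [h2]
  exact h1

/-- continuity in `x` of the moments -/
theorem mo_cont_x (g : Gen c) (j : ℕ) {t : ℝ} (ht : 0 ≤ t) :
    ContinuousOn (fun x => mo c j t x) (Ioi 0) := fun x hx =>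
  (g.de j t x ht hx).continuousAt.continuousWithinAt

theorem U_cont_x (g : Gen c) {t : ℝ} (ht : 0 ≤ t) :
    ContinuousOn (fun x => U c t x) (Ioi 0) := fun x hx =>
  (U_hasDerivAt g ht hx).continuousAt.continuousWithinAt

theorem W_cont_x (g : Gen c) {t : ℝ} (ht : 0 ≤ t) :
    ContinuousOn (fun x => W c t x) (Ioi 0) := by
  unfold W
  apply ContinuousOn.rpow_const _ (fun x _ => Or.inr (by norm_num))
  exact ((continuousOn_const.mul ((continuousOn_const.sub ((U_cont_x g ht).pow 4)).pow 2)).mul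
    (mo_cont_x g 2 ht))

theorem H_cont_x (g : Gen c) {t : ℝ} (ht : 0 ≤ t) :
    ContinuousOn (fun x => H c t x) (Ioi 0) := by
  unfold H
  exact (W_cont_x g ht).sub (continuousOn_const.mul (continuousOn_const.sub
    ((U_cont_x g ht).pow 3)))

theorem U_cont_t (g : Gen c) {x : ℝ} (hx : 0 < x) :
    ContinuousOn (fun t => U c t x) (Ici 0) := by
  unfold U
  apply continuousOn_const.sub
  exact (g.co 0).comp (f := fun t : ℝ => ((t, x) : ℝ × ℝ)) (by fun_prop)
    (fun t ht => ⟨ht, hx⟩)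

theorem mo_cont_t (g : Gen c) (j : ℕ) {x : ℝ} (hx : 0 < x) :
    ContinuousOn (fun t => mo c j t x) (Ici 0) :=
  (g.co j).comp (f := fun t : ℝ => ((t, x) : ℝ × ℝ)) (by fun_prop) (fun t ht => ⟨ht, hx⟩)

theorem F_cont_t (g : Gen c) {x : ℝ} (hx : 0 < x) :
    ContinuousOn (fun t => F c t x) (Ici 0) := by
  have h1 : ContinuousOn (fun t => W c t x) (Ici 0) := by
    unfold W
    apply ContinuousOn.rpow_const _ (fun x _ => Or.inr (by norm_num))
    exact ((continuousOn_const.mul ((continuousOn_const.sub ((U_cont_t g hx).pow 4)).pow 2)).mul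
      (mo_cont_t g 2 hx))
  unfold F
  exact ((U_cont_t g hx).mul h1).add ((U_cont_t g hx).pow 4)

theorem Fx_cont_x (g : Gen c) {t : ℝ} (ht : 0 ≤ t) (h0 : 0 < c 0 t) :
    ContinuousOn (fun x => Fx c t x) (Ioi 0) := by
  have hA : ∀ x ∈ Ioi (0 : ℝ), 1 - (U c t x) ^ 4 ≠ 0 := by
    intro x hx
    have hx' : (0 : ℝ) < x := hx
    have hu1 : U c t x < 1 := by
      have := U_le g ht hx'
      have h2 : 0 < c 0 t * Real.exp (-x) := by positivity
      linarith
    have hu0 := U_nonneg g ht hx'.le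
    have : (U c t x) ^ 4 < 1 := pow_lt_one₀ hu0 hu1 (by norm_num)
    linarith
  have hk : ∀ x ∈ Ioi (0 : ℝ), 3 * mo c 2 t x ≠ 0 := by
    intro x hx
    have hx' : (0 : ℝ) < x := hx
    have : 0 < mo c 2 t x := lt_of_lt_of_le (by positivity) (g.lo 2 t x ht hx')
    positivity
  unfold Fx
  have cU := U_cont_x g ht
  have cW := W_cont_x g ht
  have c1 := mo_cont_x g 1 ht
  have c2 := mo_cont_x g 2 ht
  have c3 := mo_cont_x g 3 ht
  apply ContinuousOn.add
  · apply ContinuousOn.mul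
    · apply ContinuousOn.sub
      · exact continuousOn_const.mul (cU.pow 2)
      · exact ((continuousOn_const.mul cW).mul (cU.pow 3)).div
          (continuousOn_const.sub (cU.pow 4)) hA
    · exact cU.mul c1
  · apply ContinuousOn.mul
    · exact cW.div (continuousOn_const.mul c2) hk
    · exact ((continuousOn_const.mul c1).mul c2).sub (cU.mul c3)

theorem Icc_sub {a b : ℝ} (ha : 0 < a) : Icc a b ⊆ Ioi (0 : ℝ) := fun _ hx => lt_of_lt_of_le ha hx.1

theorem local_ineq (b : Bas c) (g : Gen c)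
    (hUl : ∀ a : ℝ, 0 < a → ∃ C : ℝ, 0 ≤ C ∧ ∀ s t x : ℝ, 0 ≤ s → s ≤ t → a ≤ x →
      |U c t x - U c s x| ≤ C * ((t - s) + (Ph c t - Ph c s)))
    (hUe : ∀ a : ℝ, 0 < a → ∃ C : ℝ, 0 ≤ C ∧ ∀ s t x : ℝ, 0 ≤ s → s ≤ t → a ≤ x →
      |U c t x - U c s x - (t - s) * (U c t x * mo c 1 t x)
          + Real.exp (-x) * (Ph c t - Ph c s)|
        ≤ C * ((t - s) * ((t - s) + (Ph c t - Ph c s))))
    (hme : ∀ a : ℝ, 0 < a → ∃ C : ℝ, 0 ≤ C ∧ ∀ s t x : ℝ, 0 ≤ s → s ≤ t → a ≤ x →
      |mo c 2 t x - mo c 2 s x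
          - (t - s) * (3 * mo c 1 t x * mo c 2 t x - U c t x * mo c 3 t x)
          - Real.exp (-x) * (Ph c t - Ph c s)|
        ≤ C * ((t - s) * ((t - s) + (Ph c t - Ph c s))))
    (h0 : ∀ t, 3 ≤ t → 0 < c 0 t) (hc0 : ContinuousOn (c 0) (Ici 0))
    {a d t₁ t₂ : ℝ} (ha : 0 < a) (had : a ≤ d) (ht₁ : 3 ≤ t₁) (h12 : t₁ ≤ t₂) :
    ∃ C : ℝ, 0 ≤ C ∧ ∀ s t, t₁ ≤ s → s ≤ t → t ≤ t₂ →
      (t - s) * (F c t d - F c t a) - C * ((t - s) + (Ph c t - Ph c s)) ^ 2
        ≤ (∫ x in a..d, H c t x) - (∫ x in a..d, H c s x) := by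
  obtain ⟨C₂, hC₂, hUl⟩ := hUl a ha
  obtain ⟨Ce, hCe, hUe⟩ := hUe a ha
  obtain ⟨Cm, hCm, hme⟩ := hme a ha
  -- lower bound for `c 0`
  obtain ⟨p, hp, hpl⟩ : ∃ p : ℝ, 0 < p ∧ ∀ t ∈ Icc t₁ t₂, p ≤ c 0 t := by
    obtain ⟨t₀, ht₀, hmin⟩ := isCompact_Icc.exists_isMinOn (nonempty_Icc.mpr h12)
      (hc0.mono (fun t ht => (by linarith [ht.1] : (0 : ℝ) ≤ t)))
    exact ⟨c 0 t₀, h0 t₀ (by linarith [ht₀.1]), fun t ht => hmin ht⟩
  set q := p * Real.exp (-d) with hq
  have hq0 : 0 < q := by positivity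
  set k₁ := 16 / a ^ 2 with hk₁
  have hk₁0 : 0 < k₁ := by positivity
  set M := 4 + (8 / 3) * (1 + 4 * k₁) / q with hM
  have hM0 : 0 < M := by positivity
  set C₁ := Ce + Cm with hC₁
  refine ⟨(2 * M * C₁ + 4 * C₂ ^ 2) * (d - a), by
    have : 0 ≤ d - a := by linarith
    positivity, ?_⟩
  intro s t hs hst ht
  have hs0 : 0 ≤ s := by linarith
  have ht0 : 0 ≤ t := by linarith
  have hc0t : 0 < c 0 t := h0 t (by linarith)
  set δ := (t - s) + (Ph c t - Ph c s) with hδ
  have hPh : 0 ≤ Ph c t - Ph c s := by have := b.pm s t hs0 hst; linarith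
  have hδ0 : 0 ≤ δ := by rw [hδ]; linarith
  have hhδ : t - s ≤ δ := by rw [hδ]; linarith
  have hpw : ∀ x ∈ Icc a d, (t - s) * Fx c t x - (2 * M * C₁ + 4 * C₂ ^ 2) * δ ^ 2
      ≤ H c t x - H c s x := by
    intro x hx
    have hx0 : 0 < x := lt_of_lt_of_le ha hx.1
    have hex : Real.exp (-d) ≤ Real.exp (-x) := Real.exp_le_exp.mpr (by linarith [hx.2])
    have hfac : ∀ r ∈ Icc t₁ t₂, q ≤ mo c 2 r x ∧ U c r x ≤ 1 - q ∧ 0 ≤ U c r x
        ∧ mo c 2 r x ≤ k₁ := by
      intro r hr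
      have hr0 : 0 ≤ r := by linarith [hr.1]
      have h1 : q ≤ c 0 r * Real.exp (-x) := by
        rw [hq]
        exact mul_le_mul (hpl r hr) hex (by positivity) (le_trans hp.le (hpl r hr))
      refine ⟨h1.trans (g.lo 2 r x hr0 hx0), ?_, U_nonneg g hr0 hx0.le, ?_⟩
      · have := U_le g hr0 hx0
        linarith
      · have h2 := g.m2 r x hr0 hx0
        have h3 : Real.exp (-x / 2) ≤ 1 := Real.exp_le_one_iff.mpr (by linarith)
        have h4 : 16 / x ^ 2 ≤ k₁ := by
          rw [hk₁]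
          have : a ^ 2 ≤ x ^ 2 := pow_le_pow_left₀ ha.le hx.1 2
          gcongr
        calc mo c 2 r x ≤ 16 / x ^ 2 * Real.exp (-x / 2) := h2
          _ ≤ 16 / x ^ 2 * 1 := by gcongr
          _ ≤ k₁ := by linarith
    obtain ⟨ks, us1, us0, ks1⟩ := hfac s ⟨hs, by linarith⟩
    obtain ⟨kt, ut1, ut0, kt1⟩ := hfac t ⟨by linarith, ht⟩
    have hkt : 0 < mo c 2 t x := lt_of_lt_of_le hq0 kt
    have hks : 0 < mo c 2 s x := lt_of_lt_of_le hq0 ks
    have hAt : q ≤ 1 - (U c t x) ^ 4 := by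
      have : (U c t x) ^ 4 ≤ U c t x := by
        have h1 : (U c t x) ^ 4 ≤ (U c t x) ^ 1 :=
          pow_le_pow_of_le_one ut0 (by linarith) (by norm_num)
        simpa using h1
      linarith
    have hAt1 : 1 - (U c t x) ^ 4 ≤ 1 := by
      have : 0 ≤ (U c t x) ^ 4 := by positivity
      linarith
    have hW3 := W_pow (c := c) (t := t) (x := x) hkt.le
    have hWpos : 0 < W c t x := by
      have h1 := W_nonneg (c := c) (t := t) (x := x) hkt.le
      rcases h1.lt_or_eq with h | h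
      · exact h
      · exfalso
        rw [← h] at hW3
        have : 0 < 4 * (1 - (U c t x) ^ 4) ^ 2 * mo c 2 t x := by
          have : 0 < 1 - (U c t x) ^ 4 := lt_of_lt_of_le hq0 hAt
          positivity
        have h3 : (0 : ℝ) ^ 3 = 0 := by norm_num
        rw [h3] at hW3
        linarith
    have hWle : W c t x ≤ 1 + 4 * k₁ := by
      by_contra hc
      push Not at hc
      have h1 : (W c t x) ^ 3 ≤ 4 * k₁ := by
        rw [hW3]
        have h2 : (1 - (U c t x) ^ 4) ^ 2 ≤ 1 := pow_le_one₀ (by linarith) hAt1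
        calc 4 * (1 - (U c t x) ^ 4) ^ 2 * mo c 2 t x ≤ 4 * 1 * k₁ := by gcongr
          _ = 4 * k₁ := by ring
      have h3 : 1 ≤ W c t x := by linarith
      have h4 : W c t x ≤ (W c t x) ^ 3 := by
        have := pow_le_pow_right₀ h3 (show 1 ≤ 3 by norm_num)
        simpa using this
      linarith
    have hdU := hUl s t x hs0 hst hx.1
    have he1 := hUe s t x hs0 hst hx.1
    have he2 := hme s t x hs0 hst hx.1
    have hquad : (t - s) * δ ≤ δ ^ 2 := by nlinarith
    have := pw (w := W c s x) (w' := W c t x) (u := U c s x) (u' := U c t x)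
      (k := mo c 2 s x) (k' := mo c 2 t x) (δ := δ) (hh := t - s) (Y := Ph c t - Ph c s)
      (z := Real.exp (-x)) (Q := 3 * mo c 1 t x * mo c 2 t x - U c t x * mo c 3 t x)
      (m := U c t x * mo c 1 t x)
      (e₁ := U c t x - U c s x - (t - s) * (U c t x * mo c 1 t x)
          + Real.exp (-x) * (Ph c t - Ph c s))
      (e₂ := mo c 2 t x - mo c 2 s x
          - (t - s) * (3 * mo c 1 t x * mo c 2 t x - U c t x * mo c 3 t x)
          - Real.exp (-x) * (Ph c t - Ph c s))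
      (M := M) (C₁ := C₁) (C₂ := C₂)
      (W_nonneg hks.le) hWpos us0 (by linarith) ut0 (by linarith) hks.le hkt
      (W_pow hks.le) hW3 hPh (Real.exp_pos _).le (by ring) (by ring)
      (he1.trans (by rw [hC₁]; nlinarith)) (he2.trans (by rw [hC₁]; nlinarith)) hdU
      (by positivity)
      (by
        have h1 : 0 ≤ (8 / 3) * W c t x * (U c t x) ^ 3 / (1 - (U c t x) ^ 4) := by
          have : 0 < 1 - (U c t x) ^ 4 := lt_of_lt_of_le hq0 hAt
          positivity
        have h2 : (8 / 3) * W c t x * (U c t x) ^ 3 / (1 - (U c t x) ^ 4)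
            ≤ (8 / 3) * (1 + 4 * k₁) / q := by
          have h3 : (U c t x) ^ 3 ≤ 1 := pow_le_one₀ ut0 (by linarith)
          have h4 : (8 / 3) * W c t x * (U c t x) ^ 3 ≤ (8 / 3) * (1 + 4 * k₁) := by
            calc (8 / 3) * W c t x * (U c t x) ^ 3 ≤ (8 / 3) * (1 + 4 * k₁) * 1 := by gcongr
              _ = _ := by ring
          gcongr
        have h5 : 0 ≤ 4 * (U c t x) ^ 2 := by positivity
        have h6 : 4 * (U c t x) ^ 2 ≤ 4 := by
          have : (U c t x) ^ 2 ≤ 1 := pow_le_one₀ ut0 (by linarith)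
          linarith
        rw [abs_le]
        constructor
        · rw [hM]; linarith
        · rw [hM]; linarith [show 0 ≤ (8 / 3) * (1 + 4 * k₁) / q by positivity])
      (by
        have h1 : 0 ≤ W c t x / (3 * mo c 2 t x) := by positivity
        rw [abs_of_nonneg h1]
        have h2 : W c t x / (3 * mo c 2 t x) ≤ (1 + 4 * k₁) / (3 * q) := by gcongr
        have h3 : (1 + 4 * k₁) / (3 * q) ≤ (8 / 3) * (1 + 4 * k₁) / q := by
          rw [div_le_div_iff₀ (by positivity) hq0]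
          have : 0 < (1 + 4 * k₁) * q := by positivity
          nlinarith
        rw [hM]; linarith)
    unfold H Fx
    linarith
  -- integrate
  have hint1 : IntervalIntegrable (fun x => H c t x) volume a d := by
    apply ContinuousOn.intervalIntegrable_of_Icc had
    exact (H_cont_x g ht0).mono (Icc_sub ha)
  have hint2 : IntervalIntegrable (fun x => H c s x) volume a d := by
    apply ContinuousOn.intervalIntegrable_of_Icc had
    exact (H_cont_x g hs0).mono (Icc_sub ha)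
  have hint3 : IntervalIntegrable (fun x => Fx c t x) volume a d := by
    apply ContinuousOn.intervalIntegrable_of_Icc had
    exact (Fx_cont_x g ht0 hc0t).mono (Icc_sub ha)
  have hFTC : ∫ x in a..d, Fx c t x = F c t d - F c t a := by
    apply intervalIntegral.integral_eq_sub_of_hasDerivAt
    · intro x hx
      rw [uIcc_of_le had] at hx
      exact F_hasDerivAt g ht0 (lt_of_lt_of_le ha hx.1) hc0t
    · exact hint3
  rw [← hFTC, ← intervalIntegral.integral_sub hint1 hint2]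
  have h1 : ∫ x in a..d, ((t - s) * Fx c t x - (2 * M * C₁ + 4 * C₂ ^ 2) * δ ^ 2)
      ≤ ∫ x in a..d, (H c t x - H c s x) := by
    apply intervalIntegral.integral_mono_on had
    · exact (hint3.const_mul _).sub intervalIntegrable_const
    · exact hint1.sub hint2
    · exact hpw
  rw [intervalIntegral.integral_sub (hint3.const_mul _) intervalIntegrable_const,
    intervalIntegral.integral_const_mul, intervalIntegral.integral_const] at h1
  simp only [smul_eq_mul] at h1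
  linarith

end Pool.Agent.TH239.FF
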